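import Pool.Agent.N647.BU.Prim
import Pool.Agent.N647.BU.Prod
import Pool.Agent.N647.FG.CritCount

set_option autoImplicit false

/-! # Counting the elements of a set of residues with small multiplicative Fourier norm -/

namespace Pool.Agent.U208.RG

open Finset Filter
open Pool.Agent.N647.BU (coef SX cnt_eq coef_one SX_one sum_coef phi_ne sum_moebius_gcd)

variable {p : ℕ} [Fact p.Prime]

/-- the sum of the absolute values of the multiplicative Fourier coefficients -/
noncomputable def wiener (T : Finset (ZMod p)) : ℝ :=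
  ∑ χ : DirichletCharacter ℂ p, ‖∑ a ∈ T, χ a‖ / ((p : ℝ) - 1)

lemma tot_eq : ((p.totient : ℕ) : ℝ) = (p : ℝ) - 1 := by
  have hp := (Fact.out : p.Prime)
  rw [Nat.totient_prime hp]
  have := hp.one_le
  push_cast [Nat.cast_sub this]
  ring

lemma norm_coef (T : Finset (ZMod p)) (χ : DirichletCharacter ℂ p) :
    ‖coef T χ‖ = ‖∑ a ∈ T, χ⁻¹ a‖ / ((p : ℝ) - 1) := by
  unfold coef
  have h1 : ∑ a ∈ T, χ a⁻¹ = ∑ a ∈ T, χ⁻¹ a := by
    refine sum_congr rfl fun a _ => ?_
    rw [MulChar.inv_apply']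
  rw [h1, norm_mul, norm_div, norm_one, Complex.norm_natCast, tot_eq]
  ring

lemma sum_norm_coef (T : Finset (ZMod p)) :
    ∑ χ : DirichletCharacter ℂ p, ‖coef T χ‖ = wiener T := by
  unfold wiener
  simp_rw [norm_coef]
  exact Fintype.sum_equiv (Equiv.inv _) _ _ fun χ => rfl

/-- the number of elements of a set of integers in a set of residues -/
theorem set_count (T : Finset (ZMod p)) (hT : ∀ a ∈ T, a ≠ 0) (X : Finset ℤ) (E : ℝ) (hE0 : 0 ≤ E)
    (hE : ∀ χ : DirichletCharacter ℂ p, χ ≠ 1 → ‖SX χ X‖ ≤ E) :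
    |((X.filter (fun x : ℤ => (x : ZMod p) ∈ T)).card : ℝ) -
      T.card / ((p : ℝ) - 1) * ((X.filter (fun x : ℤ => (x : ZMod p) ≠ 0)).card : ℝ)| ≤
        wiener T * E := by
  classical
  have h2 := cnt_eq T hT X
  rw [← add_sum_erase univ _ (mem_univ (1 : DirichletCharacter ℂ p)), coef_one T hT, SX_one] at h2
  have h3 : ((((X.filter (fun x : ℤ => (x : ZMod p) ∈ T)).card : ℝ) -
      T.card / ((p : ℝ) - 1) * ((X.filter (fun x : ℤ => (x : ZMod p) ≠ 0)).card : ℝ) : ℝ) : ℂ) =
      ∑ χ ∈ univ.erase (1 : DirichletCharacter ℂ p), coef T χ * SX χ X := by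
    rw [← tot_eq]
    push_cast
    rw [h2]
    ring
  rw [← Real.norm_eq_abs, ← Complex.norm_real, h3]
  refine (norm_sum_le _ _).trans ?_
  calc ∑ χ ∈ univ.erase (1 : DirichletCharacter ℂ p), ‖coef T χ * SX χ X‖
      ≤ ∑ χ ∈ univ.erase (1 : DirichletCharacter ℂ p), ‖coef T χ‖ * E := by
        refine sum_le_sum fun χ hχ => ?_
        rw [norm_mul]
        exact mul_le_mul_of_nonneg_left (hE χ (ne_of_mem_erase hχ)) (norm_nonneg _)
    _ ≤ ∑ χ : DirichletCharacter ℂ p, ‖coef T χ‖ * E :=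
        sum_le_sum_of_subset_of_nonneg (erase_subset _ _) fun χ _ _ =>
          mul_nonneg (norm_nonneg _) hE0
    _ = wiener T * E := by rw [← sum_mul, sum_norm_coef]

/-- the residues of a given order -/
noncomputable def ofOrder (p n : ℕ) [Fact p.Prime] : Finset (ZMod p) :=
  univ.filter (fun a => orderOf a = n)

lemma orderOf_zero' : orderOf (0 : ZMod p) = 0 := by
  rw [orderOf_eq_zero_iff']
  intro n hn
  rw [zero_pow (by omega)]
  exact zero_ne_one

lemma ofOrder_ne {n : ℕ} (hn : n ≠ 0) : ∀ a ∈ ofOrder p n, a ≠ 0 := by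
  intro a ha h0
  rw [ofOrder, mem_filter, h0, orderOf_zero'] at ha
  exact hn ha.2.symm

/-- the indicator function of the residues of order `n` -/
lemma ord_ind {n : ℕ} (hn0 : n ≠ 0) (a : ZMod p) : (if orderOf a = n then (1 : ℤ) else 0) =
    ∑ d ∈ n.divisors, ArithmeticFunction.moebius d * (if a ^ (n / d) = 1 then 1 else 0) := by
  by_cases hord : orderOf a ∣ n
  · have h1 : ∀ d ∈ n.divisors, ArithmeticFunction.moebius d *
        (if a ^ (n / d) = 1 then (1 : ℤ) else 0) =
        if d ∣ n / orderOf a then ArithmeticFunction.moebius d else 0 := by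
      intro d hd
      have hd2 := (Nat.mem_divisors.mp hd).1
      have h2 : a ^ (n / d) = 1 ↔ d ∣ n / orderOf a := by
        rw [← orderOf_dvd_iff_pow_eq_one, Nat.dvd_div_iff_mul_dvd hd2,
          Nat.dvd_div_iff_mul_dvd hord, mul_comm]
      simp only [h2]
      split_ifs <;> simp
    rw [sum_congr rfl h1, ← sum_filter, sum_moebius_gcd _ _ hn0]
    have hord0 : 0 < orderOf a := Nat.pos_of_dvd_of_pos hord (by omega)
    congr 1
    rw [eq_iff_iff]
    constructor
    · intro h
      rw [h, Nat.div_self (by omega)]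
      exact Nat.coprime_one_left _
    · intro h
      have h2 : n / orderOf a ∣ n := Nat.div_dvd_of_dvd hord
      have h3 := Nat.Coprime.eq_one_of_dvd h h2
      have h4 := Nat.div_mul_cancel hord
      rw [h3, one_mul] at h4
      exact h4
  · rw [if_neg (fun h => hord (by rw [h])), eq_comm]
    apply sum_eq_zero
    intro d hd
    have hd2 := (Nat.mem_divisors.mp hd).1
    rw [if_neg, mul_zero]
    intro h
    exact hord ((orderOf_dvd_of_pow_eq_one h).trans (Nat.div_dvd_of_dvd hd2))

lemma ofOrder_card {n : ℕ} (hn : n ∣ p - 1) : (ofOrder p n).card = n.totient := by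
  have hp2 := (Fact.out : p.Prime).two_le
  have hn0 : n ≠ 0 := by
    rintro rfl
    have := Nat.eq_zero_of_zero_dvd hn
    omega
  have hcard : Fintype.card (ZMod p)ˣ = p - 1 := ZMod.card_units p
  have h1 := IsCyclic.card_orderOf_eq_totient (α := (ZMod p)ˣ) (d := n) (by
    rw [hcard]; exact hn)
  rw [← h1, ofOrder]
  symm
  refine card_bij (fun u _ => (u : ZMod p)) ?_ ?_ ?_
  · intro u hu
    rw [mem_filter] at hu ⊢
    exact ⟨mem_univ _, by rw [orderOf_units]; exact hu.2⟩
  · intro u _ w _ h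
    exact Units.ext h
  · intro a ha
    have ha0 := ofOrder_ne hn0 a (by rw [ofOrder]; exact ha)
    rw [mem_filter] at ha
    refine ⟨Units.mk0 a ha0, ?_, rfl⟩
    rw [mem_filter]
    refine ⟨mem_univ _, ?_⟩
    rw [← orderOf_units]
    exact ha.2

lemma wiener_ofOrder {n : ℕ} (hn0 : n ≠ 0) : wiener (ofOrder p n) ≤ n.divisors.card := by
  classical
  rw [← sum_norm_coef]
  set T : ℕ → Finset (ZMod p) := fun d => univ.filter (fun a => a ^ (n / d) = 1) with hT
  have hpos : ∀ d ∈ n.divisors, n / d ≠ 0 := by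
    intro d hd
    have hd2 := Nat.mem_divisors.mp hd
    have := Nat.div_pos (Nat.le_of_dvd (by omega) hd2.1) (Nat.pos_of_dvd_of_pos hd2.1 (by omega))
    omega
  have hT0 : ∀ d ∈ n.divisors, ∀ a ∈ T d, a ≠ 0 := by
    intro d hd a ha h0
    have h1 := (mem_filter.mp ha).2
    rw [h0, zero_pow (hpos d hd)] at h1
    exact zero_ne_one h1
  have hsum : ∀ d ∈ n.divisors, ∑ χ : DirichletCharacter ℂ p, ‖coef (T d) χ‖ = 1 := by
    intro d hd
    refine sum_coef (T d) (hT0 d hd) (by simp [hT]) ?_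
    intro a ha b hb
    simp only [hT, mem_filter, mem_univ, true_and] at ha hb ⊢
    rw [mul_pow, ha, hb, one_mul]
  have hcoef : ∀ χ : DirichletCharacter ℂ p, coef (ofOrder p n) χ =
      ∑ d ∈ n.divisors, ((ArithmeticFunction.moebius d : ℤ) : ℂ) * coef (T d) χ := by
    intro χ
    unfold coef
    have h1 : ∑ a ∈ ofOrder p n, χ a⁻¹ =
        ∑ d ∈ n.divisors, ((ArithmeticFunction.moebius d : ℤ) : ℂ) * ∑ a ∈ T d, χ a⁻¹ := by
      have h2 : ∀ a : ZMod p, (if orderOf a = n then χ a⁻¹ else 0) =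
          ∑ d ∈ n.divisors, ((ArithmeticFunction.moebius d : ℤ) : ℂ) *
            (if a ^ (n / d) = 1 then χ a⁻¹ else 0) := by
        intro a
        have h3 : ((if orderOf a = n then (1 : ℤ) else 0 : ℤ) : ℂ) = ((∑ d ∈ n.divisors,
          ArithmeticFunction.moebius d * (if a ^ (n / d) = 1 then 1 else 0) : ℤ) : ℂ) :=
          congrArg _ (ord_ind hn0 a)
        push_cast at h3
        calc (if orderOf a = n then χ a⁻¹ else 0) = (if orderOf a = n then (1 : ℂ) else 0) * χ a⁻¹ := by
              split_ifs <;> simp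
          _ = _ := by
            rw [h3, sum_mul]
            refine sum_congr rfl fun d _ => ?_
            split_ifs <;> simp
      rw [ofOrder, sum_filter, sum_congr rfl fun a _ => h2 a, sum_comm]
      refine sum_congr rfl fun d _ => ?_
      rw [← mul_sum, hT, sum_filter]
    rw [h1, mul_sum]
    refine sum_congr rfl fun d _ => ?_
    ring
  calc ∑ χ : DirichletCharacter ℂ p, ‖coef (ofOrder p n) χ‖
      ≤ ∑ χ : DirichletCharacter ℂ p, ∑ d ∈ n.divisors, ‖coef (T d) χ‖ := by
        refine sum_le_sum fun χ _ => ?_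
        rw [hcoef]
        refine (norm_sum_le _ _).trans (sum_le_sum fun d _ => ?_)
        rw [norm_mul]
        have h1 : ‖((ArithmeticFunction.moebius d : ℤ) : ℂ)‖ ≤ 1 := by
          rw [Complex.norm_intCast]
          exact_mod_cast ArithmeticFunction.abs_moebius_le_one
        calc _ ≤ 1 * ‖coef (T d) χ‖ := mul_le_mul_of_nonneg_right h1 (norm_nonneg _)
          _ = _ := one_mul _
    _ = ∑ d ∈ n.divisors, ∑ χ : DirichletCharacter ℂ p, ‖coef (T d) χ‖ := sum_comm
    _ = ∑ _d ∈ n.divisors, (1 : ℝ) := sum_congr rfl hsum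
    _ = n.divisors.card := by simp

end Pool.Agent.U208.RG
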